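import Mathlib
import Pool.Agent.S12159

set_option autoImplicit false

/-!
# Intervals with one point removed tile `ℤ³`
-/

namespace Pool.Agent.Results.MP_3bfddb_co.DimensionThree

/-- The point `(t, 0, …, 0)` of `ℤ^d`. -/
def embed (d : ℕ) (t : ℤ) : Fin d → ℤ := fun i => if i.val = 0 then t else 0

/-- `S` is a copy of `T ⊂ ℤ = ℤ × {0}^(d-1)` in `ℤ^d`: the image of `T` under a permutation of the
coordinates followed by sign changes of coordinates and a translation. -/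
def IsCopy (d : ℕ) (T : Set ℤ) (S : Set (Fin d → ℤ)) : Prop :=
  ∃ (π : Equiv.Perm (Fin d)) (s : Fin d → ℤ) (v : Fin d → ℤ), (∀ i, s i = 1 ∨ s i = -1) ∧
    S = (fun (t : ℤ) (i : Fin d) => s i * embed d t (π i) + v i) '' T

/-- `T` tiles `ℤ^d`: the lattice is a disjoint union of copies of `T`. -/
def TilesLattice (d : ℕ) (T : Set ℤ) : Prop :=
  ∃ F : Set (Set (Fin d → ℤ)), (∀ S ∈ F, IsCopy d T S) ∧ F.PairwiseDisjoint id ∧
    ⋃₀ F = Set.univ

theorem copy_of (T : Set ℤ) (a : Fin 3) (σ : ℤ) (hσ : σ = 1 ∨ σ = -1) (v : Fin 3 → ℤ) :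
    IsCopy 3 T {x | ∃ i ∈ T, x = v + (σ * i) • (Pi.single a (1 : ℤ) : Fin 3 → ℤ)} := by
  refine ⟨Equiv.swap 0 a, fun _ => σ, v, fun _ => hσ, ?_⟩
  ext x
  simp only [Set.mem_ofPred_eq, Set.mem_image]
  constructor
  · rintro ⟨i, hi, rfl⟩
    refine ⟨i, hi, ?_⟩
    funext j
    fin_cases a <;> fin_cases j <;> simp [embed, Equiv.swap_apply_def] <;> ring
  · rintro ⟨i, hi, rfl⟩
    refine ⟨i, hi, ?_⟩
    funext j
    fin_cases a <;> fin_cases j <;> simp [embed, Equiv.swap_apply_def] <;> ring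

/-- An interval of `n` consecutive integers tiles `ℤ³`. -/
theorem interval_tiles (a : ℤ) (n : ℕ) (hn : 1 ≤ n) :
    TilesLattice 3 (Set.Ico a (a + n)) := by
  let S : ℤ × ℤ × ℤ → Set (Fin 3 → ℤ) := fun p =>
    {x | ∃ i ∈ Set.Ico a (a + n), x = ![p.1 * n, p.2.1, p.2.2] +
      ((1 : ℤ) * i) • (Pi.single 0 (1 : ℤ) : Fin 3 → ℤ)}
  have hS : ∀ p x, x ∈ S p ↔ (a ≤ x 0 - p.1 * n ∧ x 0 - p.1 * n < a + n ∧ x 1 = p.2.1 ∧
      x 2 = p.2.2) := by
    intro p x
    constructor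
    · rintro ⟨i, ⟨h1, h2⟩, rfl⟩
      simp
      exact ⟨h1, h2⟩
    · rintro ⟨h1, h2, h3, h4⟩
      refine ⟨x 0 - p.1 * n, ⟨h1, h2⟩, ?_⟩
      funext j
      fin_cases j
      · simp
      · simpa using h3
      · simpa using h4
  refine ⟨Set.range S, ?_, ?_, ?_⟩
  · rintro _ ⟨p, rfl⟩
    exact copy_of _ 0 1 (Or.inl rfl) _
  · rintro _ ⟨p, rfl⟩ _ ⟨q, rfl⟩ hne
    simp only [Function.onFun, id]
    rw [Set.disjoint_left]
    intro x hx hy
    rw [hS] at hx hy
    apply hne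
    have hpq : p = q := by
      have h1 : p.1 = q.1 := by
        have hn' : (1 : ℤ) ≤ n := by exact_mod_cast hn
        rcases lt_trichotomy p.1 q.1 with h | h | h
        · nlinarith [hx.1, hx.2.1, hy.1, hy.2.1]
        · exact h
        · nlinarith [hx.1, hx.2.1, hy.1, hy.2.1]
      have h2 : p.2.1 = q.2.1 := hx.2.2.1.symm.trans hy.2.2.1
      have h3 : p.2.2 = q.2.2 := hx.2.2.2.symm.trans hy.2.2.2
      exact Prod.ext h1 (Prod.ext h2 h3)
    rw [hpq]
  · rw [Set.eq_univ_iff_forall]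
    intro x
    refine ⟨_, ⟨((x 0 - a) / n, x 1, x 2), rfl⟩, ?_⟩
    rw [hS]
    have hn' : (0 : ℤ) < n := by exact_mod_cast hn
    have h1 := Int.emod_nonneg (x 0 - a) hn'.ne'
    have h2 := Int.emod_lt_of_pos (x 0 - a) hn'
    have h3 := Int.mul_ediv_add_emod (x 0 - a) n
    refine ⟨?_, ?_, rfl, rfl⟩
    · simp only
      nlinarith
    · simp only
      nlinarith

/-- A punctured interval tiles `ℤ³`. -/
theorem punctured_tiles (a : ℤ) (k l : ℕ) (hk : 1 ≤ k) (hl : 1 ≤ l) :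
    TilesLattice 3 (Set.Icc a (a + k + l) \ {a + k}) := by
  obtain ⟨C, hC, hx⟩ := Pool.Agent.S12159.result k l hk hl
  let S : (Fin 3 → ℤ) × ℤ × Fin 3 → Set (Fin 3 → ℤ) := fun c =>
    {x | ∃ i : ℤ, ((0 ≤ i ∧ i < (k : ℤ)) ∨ ((k : ℤ) < i ∧ i ≤ (k : ℤ) + (l : ℤ))) ∧
      x = c.1 + (c.2.1 * i) • (Pi.single c.2.2 (1 : ℤ) : Fin 3 → ℤ)}
  refine ⟨S '' C, ?_, ?_, ?_⟩
  · rintro _ ⟨c, hc, rfl⟩
    have h1 : S c = {x | ∃ i ∈ Set.Icc a (a + k + l) \ {a + k},
        x = (c.1 + (c.2.1 * (-a)) • (Pi.single c.2.2 (1 : ℤ) : Fin 3 → ℤ)) +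
          (c.2.1 * i) • (Pi.single c.2.2 (1 : ℤ) : Fin 3 → ℤ)} := by
      ext x
      simp only [S, Set.mem_ofPred_eq, Set.mem_sdiff, Set.mem_Icc, Set.mem_singleton_iff]
      constructor
      · rintro ⟨i, hi, rfl⟩
        refine ⟨i + a, by omega, ?_⟩
        rw [add_assoc, ← add_smul]
        congr 2
        ring
      · rintro ⟨i, hi, rfl⟩
        refine ⟨i - a, by omega, ?_⟩
        rw [add_assoc, ← add_smul]
        congr 2
        ring
    rw [h1]
    exact copy_of _ c.2.2 c.2.1 (hC c hc) _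
  · rintro _ ⟨c, hc, rfl⟩ _ ⟨c', hc', rfl⟩ hne
    simp only [Function.onFun, id]
    rw [Set.disjoint_left]
    intro x h1 h2
    apply hne
    have := (hx x).unique (y₁ := c) (y₂ := c') ⟨hc, h1⟩ ⟨hc', h2⟩
    rw [this]
  · rw [Set.eq_univ_iff_forall]
    intro x
    obtain ⟨c, ⟨hc, hi⟩, -⟩ := hx x
    exact ⟨_, ⟨c, hc, rfl⟩, hi⟩

/-- Every (nonempty) interval with one point removed tiles `ℤ³`. So `d = 3` is a dimension in
which all of them tile. -/
theorem result :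
    ∀ a b c : ℤ, a ≤ c → c ≤ b → (Set.Icc a b \ {c}).Nonempty →
      TilesLattice 3 (Set.Icc a b \ {c}) := by
  intro a b c hac hcb hne
  rcases hac.eq_or_lt with h | h
  · subst h
    rcases hcb.eq_or_lt with h' | h'
    · subst h'
      simp at hne
    · have h1 : Set.Icc a b \ {a} = Set.Ico (a + 1) (a + 1 + ((b - a).toNat : ℕ)) := by
        ext x
        simp only [Set.mem_sdiff, Set.mem_Icc, Set.mem_singleton_iff, Set.mem_Ico]
        omega
      rw [h1]
      exact interval_tiles _ _ (by omega)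
  · rcases hcb.eq_or_lt with h' | h'
    · subst h'
      have h1 : Set.Icc a c \ {c} = Set.Ico a (a + ((c - a).toNat : ℕ)) := by
        ext x
        simp only [Set.mem_sdiff, Set.mem_Icc, Set.mem_singleton_iff, Set.mem_Ico]
        omega
      rw [h1]
      exact interval_tiles _ _ (by omega)
    · have h1 : Set.Icc a b \ {c} = Set.Icc a (a + ((c - a).toNat : ℕ) + ((b - c).toNat : ℕ)) \
          {a + ((c - a).toNat : ℕ)} := by
        ext x
        simp only [Set.mem_sdiff, Set.mem_Icc, Set.mem_singleton_iff]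
        omega
      rw [h1]
      exact punctured_tiles a _ _ (by omega) (by omega)

end Pool.Agent.Results.MP_3bfddb_co.DimensionThree
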